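import Pool.Agent.MP_d5eec5_gt.H77.Main0
import Pool.Agent.MP_d5eec5_gt.H86.Nf
import Pool.Agent.MP_d5eec5_gt.H82.Zn

/-!
The average height of the planar knotoids of crossing number `n` that have a descending diagram
is of exact order `√n · log n`.
-/

set_option autoImplicit false

namespace Pool.Agent.Results.MP_d5eec5_gt.DescHeight

open Pool.Agent.MP_d5eec5_gt.H77

theorem result : ∃ c C : ℝ, 0 < c ∧ ∃ N : ℕ, ∀ n ≥ N,
    (DescSet n).Finite ∧ (DescSet n).Nonempty ∧
      c * (√n * Real.log n) ≤ (∑ᶠ K ∈ DescSet n, (ht K : ℝ)) / (DescSet n).ncard ∧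
      (∑ᶠ K ∈ DescSet n, (ht K : ℝ)) / (DescSet n).ncard ≤ C * (√n * Real.log n) :=
  (steps_of nf_of).main (geo_of_zn zn) Pool.Agent.MP_d5eec5_gt.H48.count

end Pool.Agent.Results.MP_d5eec5_gt.DescHeight
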